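import Pool.Agent.H32.N6W.TargetsL

/-!
# Row REC of n6w_modules: the invariant of a form over `k` as a product of symbols
-/

set_option autoImplicit false

open Polynomial NumberField IsDedekindDomain Matrix Pool.Agent.H32.QC Pool.Agent.H34.N6
open Pool.Agent.H13.DEV Pool.Agent.H34.N6V Pool.Agent.H63.WT Pool.Agent.H32.N6W

namespace Pool.Agent.H46.N6W

/-- the invariants of the images of `w` are products of symbols of elements of `k` -/
def Rp {k : Type} [Field k] (w : WG k) : Prop :=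
  ∃ (m : ℕ) (x y : Fin m → k), (∀ i, x i ≠ 0 ∧ y i ≠ 0) ∧
    ∀ (F : Type) [Field F] (φ : k →+* F) (f : WG k →+ WG F),
      (∀ a : k, a ≠ 0 → f (on a) = on (φ a)) → ∀ e : WG F → ℤ, EInv F e →
        I2 (f w) ∧ e (f w) = ∏ i, hil (φ (x i)) (φ (y i))

theorem rc_two {F : Type} [Field F] [CharZero F] : (2 : F) ≠ 0 := two_ne_zero

theorem rc_zero {F : Type} [Field F] {e : WG F → ℤ} (he : EInv F e) (h0 : I2 (0 : WG F)) :
    e 0 = 1 := by
  have h1 := he.add 0 0 h0 h0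
  rw [add_zero] at h1
  rcases he.sgn 0 with h2 | h2
  · exact h2
  · rw [h2] at h1
    norm_num at h1

theorem rc_neg {F : Type} [Field F] {e : WG F → ℤ} (he : EInv F e) (h0 : I2 (0 : WG F))
    {x : WG F} (hx : I2 x) (hx' : I2 (-x)) : e (-x) = e x := by
  have h1 := he.add x (-x) hx hx'
  rw [add_neg_cancel, rc_zero he h0] at h1
  rcases he.sgn x with h2 | h2 <;> rcases he.sgn (-x) with h3 | h3 <;> rw [h2, h3] at h1 ⊢ <;>
    norm_num at h1

variable {k : Type} [Field k] [CharZero k]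

theorem rc_char {F : Type} [Field F] (φ : k →+* F) : (2 : F) ≠ 0 := by
  have : CharZero F := charZero_of_injective_ringHom φ.injective
  exact two_ne_zero

theorem rp_zero (hI2A : T_I2A) : Rp (0 : WG k) := by
  refine ⟨0, Fin.elim0, Fin.elim0, fun i => i.elim0, ?_⟩
  intro F _ φ f hf e he
  obtain ⟨h0, -, -⟩ := hI2A F (rc_char φ)
  rw [map_zero]
  refine ⟨h0, ?_⟩
  rw [rc_zero he h0]
  simp

theorem rp_neg (hI2A : T_I2A) {w : WG k} (h : Rp w) : Rp (-w) := by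
  obtain ⟨m, x, y, hxy, h⟩ := h
  refine ⟨m, x, y, hxy, ?_⟩
  intro F _ φ f hf e he
  obtain ⟨h0, -, hn⟩ := hI2A F (rc_char φ)
  obtain ⟨h1, h2⟩ := h F φ f hf e he
  rw [map_neg]
  exact ⟨hn _ h1, by rw [rc_neg he h0 h1 (hn _ h1), h2]⟩

theorem rp_add (hI2A : T_I2A) {w w' : WG k} (h : Rp w) (h' : Rp w') : Rp (w + w') := by
  obtain ⟨m, x, y, hxy, h⟩ := h
  obtain ⟨m', x', y', hxy', h'⟩ := h'
  refine ⟨m + m', Fin.append x x', Fin.append y y', ?_, ?_⟩
  · intro i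
    refine Fin.addCases (fun j => ?_) (fun j => ?_) i
    · rw [Fin.append_left, Fin.append_left]; exact hxy j
    · rw [Fin.append_right, Fin.append_right]; exact hxy' j
  intro F _ φ f hf e he
  obtain ⟨h0, ha, hn⟩ := hI2A F (rc_char φ)
  obtain ⟨h1, h2⟩ := h F φ f hf e he
  obtain ⟨h3, h4⟩ := h' F φ f hf e he
  rw [map_add]
  refine ⟨ha _ _ h1 h3, ?_⟩
  rw [he.add _ _ h1 h3, h2, h4, Fin.prod_univ_add]
  simp only [Fin.append_left, Fin.append_right]

theorem rp_pf (hPFI : T_PFI) {a b : k} (ha : a ≠ 0) (hb : b ≠ 0) : Rp (pf a b) := by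
  refine ⟨1, fun _ => a, fun _ => b, fun _ => ⟨ha, hb⟩, ?_⟩
  intro F _ φ f hf e he
  have ha' : φ a ≠ 0 := (map_ne_zero φ).2 ha
  have hb' : φ b ≠ 0 := (map_ne_zero φ).2 hb
  have h1 : f (pf a b) = pf (φ a) (φ b) := by
    unfold pf
    rw [map_add, map_sub, map_sub, hf 1 one_ne_zero, hf a ha, hf b hb, hf _ (mul_ne_zero ha hb),
      map_one, map_mul]
  rw [h1]
  refine ⟨(hPFI F (rc_char φ) _ _ ha' hb').1, ?_⟩
  rw [Finset.univ_unique, Finset.prod_singleton]
  exact he.pfi _ _ ha' hb'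

theorem rc_step (hONE : T_ONE) {a b U : k} (ha : a ≠ 0) (hb : b ≠ 0) :
    on a + on b - on U + on (U * (-(a * b))) = pf U (-(a * b)) + -pf a (-(a * b)) := by
  obtain ⟨h1, h2, -, -⟩ := hONE k two_ne_zero
  have h3 : on b = -on (a * (-(a * b))) := by
    have e1 : b = -(a * (-(a * b))) * (a⁻¹) ^ 2 := by
      field_simp
    have hne : a * (-(a * b)) ≠ 0 := mul_ne_zero ha (neg_ne_zero.2 (mul_ne_zero ha hb))
    calc on b = on (-(a * (-(a * b))) * (a⁻¹) ^ 2) := by rw [← e1]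
      _ = on (-(a * (-(a * b)))) := h1 _ _ (neg_ne_zero.2 hne) (inv_ne_zero ha)
      _ = -on (a * (-(a * b))) := h2 _ hne
  rw [h3]
  unfold pf
  abel

theorem rc_main (hONE : T_ONE) (hI2A : T_I2A) (hPFI : T_PFI) (r : ℕ) :
    ∀ a b : Fin r → k, (∀ i, a i ≠ 0) → (∀ i, b i ≠ 0) →
      Rp ((∑ i, (on (a i) + on (b i))) - (on 1 - on (∏ i, (-(a i * b i))))) := by
  induction r with
  | zero =>
    intro a b _ _
    simp only [Finset.univ_eq_empty, Finset.sum_empty, Finset.prod_empty, sub_self]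
    exact rp_zero hI2A
  | succ r ih =>
    intro a b ha hb
    have h1 := ih (fun i => a i.castSucc) (fun i => b i.castSucc) (fun i => ha _) (fun i => hb _)
    rw [Fin.sum_univ_castSucc, Fin.prod_univ_castSucc]
    obtain ⟨U, hU⟩ : ∃ U, U = ∏ i : Fin r, (-(a i.castSucc * b i.castSucc)) := ⟨_, rfl⟩
    have hU0 : U ≠ 0 := by
      rw [hU]
      exact Finset.prod_ne_zero_iff.2 fun i _ => neg_ne_zero.2 (mul_ne_zero (ha _) (hb _))
    have hu : -(a (Fin.last r) * b (Fin.last r)) ≠ 0 := neg_ne_zero.2 (mul_ne_zero (ha _) (hb _))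
    have h2 := rc_step hONE (U := U) (ha (Fin.last r)) (hb (Fin.last r))
    rw [← hU] at h1 ⊢
    have h3 := rp_add hI2A h1 (rp_add hI2A (rp_pf hPFI hU0 hu)
      (rp_neg hI2A (rp_pf hPFI (ha (Fin.last r)) hu)))
    rw [← h2] at h3
    have h4 : ∑ i : Fin r, (on (a i.castSucc) + on (b i.castSucc)) +
        (on (a (Fin.last r)) + on (b (Fin.last r))) -
        (on 1 - on (U * -(a (Fin.last r) * b (Fin.last r)))) =
        ∑ i : Fin r, (on (a i.castSucc) + on (b i.castSucc)) - (on 1 - on U) +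
        (on (a (Fin.last r)) + on (b (Fin.last r)) - on U +
          on (U * -(a (Fin.last r) * b (Fin.last r)))) := by abel
    rw [h4]
    exact h3

theorem rc_rp (hCLS : T_CLS) (hONE : T_ONE) (hI2D : T_I2D) (hI2A : T_I2A) (hPFI : T_PFI)
    (hW0 : T_W0) (ι : Type) [Fintype ι] [DecidableEq ι] (n : ℕ) (A : Matrix ι ι k)
    (hc : Fintype.card ι = 2 * n) (hA : SN A) (hsq : IsSquare ((-1) ^ n * A.det)) :
    Rp (cls A) := by
  obtain ⟨c1, c2, -, c4, -⟩ := hCLS k two_ne_zero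
  obtain ⟨o1, o2, o3, o4⟩ := hONE k two_ne_zero
  obtain ⟨m, a, ha, hsum⟩ := o4 (cls A)
  have hdet : (Matrix.diagonal a).det ≠ 0 := by
    rw [Matrix.det_diagonal]
    exact Finset.prod_ne_zero_iff.2 fun i _ => ha i
  have hdS : SN (Matrix.diagonal a) := ⟨Matrix.isSymm_diagonal a, hdet⟩
  have hcl : cls A = cls (Matrix.diagonal a) := by rw [o3 (Fin m) a ha, hsum]
  have hdN : SN (-(Matrix.diagonal a)) := by
    refine ⟨?_, ?_⟩
    · exact hdS.1.neg
    · rw [Matrix.det_neg]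
      exact mul_ne_zero (pow_ne_zero _ (neg_ne_zero.2 one_ne_zero)) hdet
  have hB : SN (fromBlocks A 0 0 (-(Matrix.diagonal a))) := by
    refine ⟨?_, ?_⟩
    · exact Matrix.IsSymm.fromBlocks hA.1 (by simp) hdN.1
    · rw [Matrix.det_fromBlocks_zero₂₁]
      exact mul_ne_zero hA.2 hdN.2
  have hB0 : cls (fromBlocks A 0 0 (-(Matrix.diagonal a))) = 0 := by
    rw [c2 ι (Fin m) A _ hA hdN, c4 (Fin m) _ hdS, hcl, add_neg_cancel]
  obtain ⟨s, hs, -⟩ := hW0 k two_ne_zero _ _ hB hB0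
  rw [Fintype.card_sum, hc, Fintype.card_fin] at hs
  obtain ⟨r, hr⟩ : ∃ r, m = r + r := ⟨s - n, by omega⟩
  subst hr
  have hI : I2 (cls (Matrix.diagonal a)) := by
    rw [← hcl]
    exact (hI2D k two_ne_zero ι A n hA hc).2 hsq
  have hsq2 : IsSquare ((-1) ^ r * (Matrix.diagonal a).det) :=
    (hI2D k two_ne_zero (Fin (r + r)) _ r hdS (by rw [Fintype.card_fin]; ring)).1 hI
  have h1 := rc_main hONE hI2A hPFI r (fun i => a (Fin.castAdd r i)) (fun i => a (Fin.natAdd r i))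
    (fun i => ha _) (fun i => ha _)
  have h2 : ∏ i : Fin r, (-(a (Fin.castAdd r i) * a (Fin.natAdd r i))) =
      (-1) ^ r * (Matrix.diagonal a).det := by
    rw [Matrix.det_diagonal, Fin.prod_univ_add, ← Finset.prod_mul_distrib]
    have : ∀ i : Fin r, -(a (Fin.castAdd r i) * a (Fin.natAdd r i)) =
        (-1) * (a (Fin.castAdd r i) * a (Fin.natAdd r i)) := fun i => by ring
    simp only [this]
    rw [Finset.prod_mul_distrib, Finset.prod_const, Finset.card_univ, Fintype.card_fin]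
  rw [h2] at h1
  obtain ⟨t, ht⟩ := hsq2
  have ht0 : t ≠ 0 := by
    rintro rfl
    have h3 : (-1 : k) ^ r * (Matrix.diagonal a).det ≠ 0 :=
      mul_ne_zero (pow_ne_zero _ (neg_ne_zero.2 one_ne_zero)) hdet
    exact h3 (by rw [ht]; ring)
  have h3 : on ((-1 : k) ^ r * (Matrix.diagonal a).det) = on 1 := by
    rw [ht]
    have := o1 1 t one_ne_zero ht0
    rw [one_mul, pow_two] at this
    exact this
  rw [h3, sub_self, sub_zero] at h1
  rw [hsum, Fin.sum_univ_add, ← Finset.sum_add_distrib]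
  exact h1

theorem pf_REC (hCLS : T_CLS) (hONE : T_ONE) (hI2D : T_I2D) (hI2A : T_I2A) (hPFI : T_PFI)
    (hBCH : T_BCH) (hW0 : T_W0) : T_REC := by
  intro k ι _ _ _ _ n A hc hs hd hsq
  obtain ⟨m, x, y, hxy, h⟩ := rc_rp hCLS hONE hI2D hI2A hPFI hW0 ι n A hc ⟨hs, hd⟩ hsq
  refine ⟨m, x, y, hxy, ?_⟩
  intro F _ φ e he
  obtain ⟨f, hf⟩ := hBCH k F two_ne_zero φ
  rw [← hf ι A ⟨hs, hd⟩]
  refine (h F φ f ?_ e he).2
  intro a ha
  unfold on
  have h1 : SN (fun _ _ : Fin 1 => a : Matrix (Fin 1) (Fin 1) k) := by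
    refine ⟨?_, ?_⟩
    · ext i j
      rfl
    · rw [Matrix.det_unique]
      exact ha
  rw [hf (Fin 1) _ h1]
  rfl

end Pool.Agent.H46.N6W
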