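import Pool.Agent.H32.N6W.Targets
import Pool.Agent.H34.N6.Lib

/-!
# Row UPS of n6w_modules
-/

set_option autoImplicit false

open Polynomial NumberField IsDedekindDomain Matrix Pool.Agent.H32.QC Pool.Agent.H34.N6
open Pool.Agent.H13.DEV Pool.Agent.H34.N6V Pool.Agent.H63.WT Pool.Agent.H32.N6W

namespace Pool.Agent.H46.N6W

theorem pf_UPS : T_UPS := by
  intro F _ P D A hP hA E _ φ t ht
  letI : Algebra F E := φ.toAlgebra
  have hφ : algebraMap F E = φ := rfl
  have ht' : aeval t A = 0 := ht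
  have hint : IsIntegral F t := ⟨A, hA.mon, ht⟩
  have hT1 : (minpoly F t).Monic := minpoly.monic hint
  have hT2 : Irreducible (minpoly F t) := minpoly.irreducible hint
  have hT3 : minpoly F t ∣ A := minpoly.dvd F t ht'
  haveI : Fact (Irreducible (minpoly F t)) := ⟨hT2⟩
  have h1 := hA.spl (minpoly F t) hT1 hT2 hT3 (AdjoinRoot (minpoly F t))
    (AdjoinRoot.root (minpoly F t)) (by
      rw [AdjoinRoot.aeval_eq, AdjoinRoot.mk_self]) AdjoinRoot.adjoinRoot_eq_top
  have h2 : eval₂ φ t (minpoly F t) = 0 := minpoly.aeval F t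
  have h3 := h1.map (AdjoinRoot.lift φ t h2)
  rw [← ft_map (hP.map _), Polynomial.map_map, Polynomial.map_map, AdjoinRoot.lift_root] at h3
  have h4 : (AdjoinRoot.lift φ t h2).comp (algebraMap F (AdjoinRoot (minpoly F t))) = φ := by
    apply RingHom.ext
    intro a
    exact AdjoinRoot.lift_of h2
  rw [h4] at h3
  exact h3

end Pool.Agent.H46.N6W
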